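import Pool.Agent.H37.CV.Targets

/-!
# Sums of Selberg's weights over the sets which contain `E` (row CZ)
-/

set_option autoImplicit false

namespace Pool.Agent.H19.CV

open Pool.Agent.H37.CV

section

variable {α : Type} (N : α → ℝ)

open scoped Classical in
lemma nS_union {S T : Finset α} (h : Disjoint S T) : nS N (S ∪ T) = nS N S * nS N T := by
  rw [nS, nS, nS]
  exact Finset.prod_union h

open scoped Classical in
lemma fS_union {S T : Finset α} (h : Disjoint S T) : fS N (S ∪ T) = fS N S * fS N T := by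
  rw [fS, fS, fS]
  exact Finset.prod_union h

variable {N}

lemma fS_pos (hN : ∀ P, 2 ≤ N P) (S : Finset α) : 0 < fS N S :=
  Finset.prod_pos fun P _ => by linarith [hN P]

lemma one_le_nS (hN : ∀ P, 2 ≤ N P) (S : Finset α) : 1 ≤ nS N S := by
  calc (1 : ℝ) = ∏ _P ∈ S, (1 : ℝ) := by rw [Finset.prod_const_one]
    _ ≤ nS N S := Finset.prod_le_prod (fun _ _ => zero_le_one) fun P _ => by linarith [hN P]

lemma nS_pos (hN : ∀ P, 2 ≤ N P) (S : Finset α) : 0 < nS N S :=
  lt_of_lt_of_le one_pos (one_le_nS hN S)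

open scoped Classical in
lemma nS_mono (hN : ∀ P, 2 ≤ N P) {S T : Finset α} (h : S ⊆ T) : nS N S ≤ nS N T := by
  have h1 : nS N T = nS N S * nS N (T \ S) := by
    rw [← nS_union N Finset.disjoint_sdiff, Finset.union_sdiff_of_subset h]
  rw [h1]
  exact le_mul_of_one_le_right (nS_pos hN S).le (one_le_nS hN _)

open scoped Classical in
lemma mem_DS {A S : Finset α} {M : ℝ} : S ∈ DS N A M ↔ S ⊆ A ∧ nS N S ≤ M := by
  rw [DS, Finset.mem_filter, Finset.mem_powerset]

open scoped Classical in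
/-- The weights as sums over the larger sets. -/
lemma xS_eq (hN : ∀ P, 2 ≤ N P) (A : Finset α) (M : ℝ) {S : Finset α} (hS : S ⊆ A) :
    xS N A M S / nS N S = (-1) ^ S.card / GS N A M *
      ∑ F ∈ (DS N A M).filter (fun F => S ⊆ F), (fS N F)⁻¹ := by
  have h1 : (fS N S)⁻¹ * ∑ T ∈ (DS N A M).filter (fun T => Disjoint S T ∧ nS N S * nS N T ≤ M),
      (fS N T)⁻¹ = ∑ F ∈ (DS N A M).filter (fun F => S ⊆ F), (fS N F)⁻¹ := by
    rw [Finset.mul_sum]
    refine Finset.sum_nbij' (fun T => S ∪ T) (fun F => F \ S) ?_ ?_ ?_ ?_ ?_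
    · intro T hT
      obtain ⟨h1, h2, h3⟩ := Finset.mem_filter.1 hT
      refine Finset.mem_filter.2 ⟨mem_DS.2 ⟨Finset.union_subset hS (mem_DS.1 h1).1, ?_⟩,
        Finset.subset_union_left⟩
      rw [nS_union N h2]
      exact h3
    · intro F hF
      obtain ⟨h1, h2⟩ := Finset.mem_filter.1 hF
      obtain ⟨h3, h4⟩ := mem_DS.1 h1
      have h5 : nS N S * nS N (F \ S) = nS N F := by
        rw [← nS_union N Finset.disjoint_sdiff, Finset.union_sdiff_of_subset h2]
      refine Finset.mem_filter.2 ⟨mem_DS.2 ⟨Finset.sdiff_subset.trans h3,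
        (nS_mono hN Finset.sdiff_subset).trans h4⟩, Finset.disjoint_sdiff, ?_⟩
      rw [h5]; exact h4
    · intro T hT
      obtain ⟨h1, h2, h3⟩ := Finset.mem_filter.1 hT
      exact Finset.union_sdiff_cancel_left h2
    · intro F hF
      exact Finset.union_sdiff_of_subset (Finset.mem_filter.1 hF).2
    · intro T hT
      obtain ⟨h1, h2, h3⟩ := Finset.mem_filter.1 hT
      rw [fS_union N h2, mul_inv]
  rw [← h1, xS]
  have h2 := (nS_pos hN S).ne'
  have h3 := (fS_pos hN S).ne'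
  field_simp

open scoped Classical in
/-- The inner sum. -/
lemma inner_sum (hN : ∀ P, 2 ≤ N P) (E Q F R : Finset α) (hEF : E ⊆ F) (hQF : Q ⊆ F)
    (hER : Disjoint E R) (hQR : Q ⊆ R) :
    ∑ S ∈ F.powerset.filter (fun S => E ⊆ S ∧ Q ⊆ S), (-1) ^ S.card * nS N (S ∩ R) =
      if F \ E ⊆ R then (-1) ^ E.card * ((-1) ^ (F \ E).card *
        (nS N Q / fS N Q * fS N (F \ E))) else 0 := by
  have h1 : ∏ x ∈ F, ((-(if x ∈ R then N x else 1)) + (if x ∈ E ∪ Q then (0 : ℝ) else 1)) =
      ∑ S ∈ F.powerset.filter (fun S => E ⊆ S ∧ Q ⊆ S), (-1) ^ S.card * nS N (S ∩ R) := by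
    rw [Finset.prod_add, Finset.sum_filter]
    refine Finset.sum_congr rfl fun S hS => ?_
    have hSF := Finset.mem_powerset.1 hS
    have e1 : ∏ x ∈ S, (-(if x ∈ R then N x else 1)) = (-1) ^ S.card * nS N (S ∩ R) := by
      rw [Finset.prod_neg, nS]
      congr 1
      rw [Finset.prod_ite_mem]
    by_cases h : E ⊆ S ∧ Q ⊆ S
    · rw [if_pos h, e1]
      rw [Finset.prod_eq_one, mul_one]
      intro x hx
      obtain ⟨_, h3⟩ := Finset.mem_sdiff.1 hx
      rw [if_neg]
      intro h4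
      rcases Finset.mem_union.1 h4 with h5 | h5
      · exact h3 (h.1 h5)
      · exact h3 (h.2 h5)
    · rw [if_neg h]
      have h2 : ∃ x ∈ F \ S, x ∈ E ∪ Q := by
        by_contra hcon
        push Not at hcon
        apply h
        constructor
        · intro x hx
          by_contra hxS
          exact hcon x (Finset.mem_sdiff.2 ⟨hEF hx, hxS⟩) (Finset.mem_union_left _ hx)
        · intro x hx
          by_contra hxS
          exact hcon x (Finset.mem_sdiff.2 ⟨hQF hx, hxS⟩) (Finset.mem_union_right _ hx)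
      obtain ⟨x, hx, hx2⟩ := h2
      have h3 : ∏ x ∈ F \ S, (if x ∈ E ∪ Q then (0 : ℝ) else 1) = 0 :=
        Finset.prod_eq_zero hx (if_pos hx2)
      rw [h3, mul_zero]
  rw [← h1]
  by_cases h : F \ E ⊆ R
  · rw [if_pos h]
    have hF : F = E ∪ (F \ E) := (Finset.union_sdiff_of_subset hEF).symm
    rw [← Finset.prod_sdiff hEF, mul_comm]
    congr 1
    · rw [Finset.prod_eq_pow_card]
      intro x hx
      rw [if_neg (Finset.disjoint_left.1 hER hx), if_pos (Finset.mem_union_left _ hx), add_zero]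
    · have hQE : Q ⊆ F \ E := by
        intro x hx
        exact Finset.mem_sdiff.2 ⟨hQF hx, fun h2 => Finset.disjoint_left.1 hER h2 (hQR hx)⟩
      have h2 : nS N Q / fS N Q * fS N (F \ E) = nS N Q * fS N ((F \ E) \ Q) := by
        have h3 : fS N (F \ E) = fS N Q * fS N ((F \ E) \ Q) := by
          rw [← fS_union N Finset.disjoint_sdiff, Finset.union_sdiff_of_subset hQE]
        rw [h3]
        have := (fS_pos hN Q).ne'
        field_simp
      rw [h2, ← Finset.prod_const, ← Finset.prod_sdiff hQE]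
      have e1 : ∏ x ∈ F \ E, (-1 : ℝ) = (∏ x ∈ (F \ E) \ Q, (-1 : ℝ)) * ∏ x ∈ Q, (-1 : ℝ) :=
        (Finset.prod_sdiff hQE).symm
      rw [e1, nS, fS]
      have e2 : ∏ x ∈ (F \ E) \ Q, ((-(if x ∈ R then N x else 1)) +
          (if x ∈ E ∪ Q then (0 : ℝ) else 1)) =
          (∏ x ∈ (F \ E) \ Q, (-1 : ℝ)) * ∏ x ∈ (F \ E) \ Q, (N x - 1) := by
        rw [← Finset.prod_mul_distrib]
        refine Finset.prod_congr rfl fun x hx => ?_
        obtain ⟨h3, h4⟩ := Finset.mem_sdiff.1 hx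
        rw [if_pos (h h3), if_neg]
        · ring
        · intro h5
          rcases Finset.mem_union.1 h5 with h6 | h6
          · exact (Finset.mem_sdiff.1 h3).2 h6
          · exact h4 h6
      have e3 : ∏ x ∈ Q, ((-(if x ∈ R then N x else 1)) +
          (if x ∈ E ∪ Q then (0 : ℝ) else 1)) = (∏ x ∈ Q, (-1 : ℝ)) * ∏ x ∈ Q, N x := by
        rw [← Finset.prod_mul_distrib]
        refine Finset.prod_congr rfl fun x hx => ?_
        rw [if_pos (hQR hx), if_pos (Finset.mem_union_right _ hx)]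
        ring
      rw [e2, e3]
      ring
  · rw [if_neg h]
    obtain ⟨x, hx, hxR⟩ := Finset.not_subset.1 h
    obtain ⟨h2, h3⟩ := Finset.mem_sdiff.1 hx
    refine Finset.prod_eq_zero h2 ?_
    rw [if_neg hxR, if_neg]
    · ring
    · intro h5
      rcases Finset.mem_union.1 h5 with h6 | h6
      · exact h3 h6
      · exact hxR (hQR h6)

open scoped Classical in
/-- The general form: sets containing `E` and `Q ⊆ R`. -/
lemma cz_gen (hN : ∀ P, 2 ≤ N P) (A R E Q : Finset α) (M : ℝ) (hRA : R ⊆ A) (hEA : E ⊆ A)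
    (hER : Disjoint E R) (hQR : Q ⊆ R) :
    ∑ S ∈ (DS N A M).filter (fun S => E ⊆ S ∧ Q ⊆ S), xS N A M S * (nS N (S ∩ R) / nS N S) =
      (-1) ^ E.card / (fS N E * GS N A M) * (nS N Q / fS N Q) *
        ∑ n ∈ R.powerset.filter (fun n => Q ⊆ n ∧ nS N n * nS N E ≤ M), (-1) ^ n.card := by
  have s1 : ∑ S ∈ (DS N A M).filter (fun S => E ⊆ S ∧ Q ⊆ S),
      xS N A M S * (nS N (S ∩ R) / nS N S) =
      ∑ S ∈ (DS N A M).filter (fun S => E ⊆ S ∧ Q ⊆ S),
        ∑ F ∈ (DS N A M).filter (fun F => S ⊆ F),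
          (GS N A M)⁻¹ * ((fS N F)⁻¹ * ((-1) ^ S.card * nS N (S ∩ R))) := by
    refine Finset.sum_congr rfl fun S hS => ?_
    have hSD := (mem_DS.1 (Finset.mem_filter.1 hS).1)
    have e : xS N A M S * (nS N (S ∩ R) / nS N S) = xS N A M S / nS N S * nS N (S ∩ R) := by ring
    rw [e, xS_eq hN A M hSD.1, Finset.mul_sum, Finset.sum_mul]
    refine Finset.sum_congr rfl fun F _ => ?_
    rw [div_eq_mul_inv]
    ring
  rw [s1, Finset.sum_comm' (t' := (DS N A M).filter (fun F => E ⊆ F ∧ Q ⊆ F))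
    (s' := fun F => F.powerset.filter (fun S => E ⊆ S ∧ Q ⊆ S))]
  · have s2 : ∀ F ∈ (DS N A M).filter (fun F => E ⊆ F ∧ Q ⊆ F),
        ∑ S ∈ F.powerset.filter (fun S => E ⊆ S ∧ Q ⊆ S),
          (GS N A M)⁻¹ * ((fS N F)⁻¹ * ((-1) ^ S.card * nS N (S ∩ R))) =
        if F \ E ⊆ R then (-1) ^ E.card / (fS N E * GS N A M) * (nS N Q / fS N Q) *
          (-1) ^ (F \ E).card else 0 := by
      intro F hF
      obtain ⟨_, h2, h3⟩ := Finset.mem_filter.1 hF
      rw [← Finset.mul_sum, ← Finset.mul_sum, inner_sum hN E Q F R h2 h3 hER hQR]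
      by_cases h : F \ E ⊆ R
      · rw [if_pos h, if_pos h]
        have h4 : fS N F = fS N E * fS N (F \ E) := by
          rw [← fS_union N Finset.disjoint_sdiff, Finset.union_sdiff_of_subset h2]
        rw [h4]
        have h5 := (fS_pos hN (F \ E)).ne'
        have h6 := (fS_pos hN E).ne'
        have h7 := (fS_pos hN Q).ne'
        rw [div_eq_mul_inv ((-1 : ℝ) ^ E.card), mul_inv, mul_inv]
        field_simp
      · rw [if_neg h, if_neg h, mul_zero, mul_zero]
    rw [Finset.sum_congr rfl s2, ← Finset.sum_filter, Finset.mul_sum]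
    refine Finset.sum_nbij' (fun F => F \ E) (fun n => E ∪ n) ?_ ?_ ?_ ?_ ?_
    · intro F hF
      obtain ⟨h1, h2⟩ := Finset.mem_filter.1 hF
      obtain ⟨h3, h4, h5⟩ := Finset.mem_filter.1 h1
      refine Finset.mem_filter.2 ⟨Finset.mem_powerset.2 h2, ?_, ?_⟩
      · intro x hx
        exact Finset.mem_sdiff.2 ⟨h5 hx, fun h6 => Finset.disjoint_left.1 hER h6 (hQR hx)⟩
      · rw [mul_comm, ← nS_union N Finset.disjoint_sdiff, Finset.union_sdiff_of_subset h4]
        exact (mem_DS.1 h3).2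
    · intro n hn
      obtain ⟨h1, h2, h3⟩ := Finset.mem_filter.1 hn
      have h4 := Finset.mem_powerset.1 h1
      have h5 : Disjoint E n := Finset.disjoint_of_subset_right h4 hER
      refine Finset.mem_filter.2 ⟨Finset.mem_filter.2 ⟨mem_DS.2
        ⟨Finset.union_subset hEA (h4.trans hRA), ?_⟩, Finset.subset_union_left,
        h2.trans Finset.subset_union_right⟩, ?_⟩
      · rw [nS_union N h5, mul_comm]
        exact h3
      · rw [Finset.union_sdiff_cancel_left h5]
        exact h4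
    · intro F hF
      obtain ⟨h1, h2⟩ := Finset.mem_filter.1 hF
      obtain ⟨h3, h4, h5⟩ := Finset.mem_filter.1 h1
      exact Finset.union_sdiff_of_subset h4
    · intro n hn
      obtain ⟨h1, h2, h3⟩ := Finset.mem_filter.1 hn
      have h4 := Finset.mem_powerset.1 h1
      exact Finset.union_sdiff_cancel_left (Finset.disjoint_of_subset_right h4 hER)
    · intro F _
      rfl
  · intro S F
    simp only [Finset.mem_filter, mem_DS, Finset.mem_powerset]
    constructor
    · rintro ⟨⟨⟨_, _⟩, h1, h2⟩, ⟨h3, h4⟩, h5⟩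
      exact ⟨⟨h5, h1, h2⟩, ⟨h3, h4⟩, h1.trans h5, h2.trans h5⟩
    · rintro ⟨⟨h5, h1, h2⟩, ⟨h3, h4⟩, _, _⟩
      exact ⟨⟨⟨h5.trans h3, (nS_mono hN h5).trans h4⟩, h1, h2⟩, ⟨h3, h4⟩, h5⟩

end

theorem pf_CZ : T_CZ := by
  intro α N A R E M hN _ hRA hEA hER
  classical
  refine ⟨?_, ?_⟩
  · have h := cz_gen hN A R E ∅ M hRA hEA hER (Finset.empty_subset R)
    have e1 : nS N ∅ / fS N ∅ = 1 := by simp [nS, fS]
    rw [e1, mul_one] at h
    simp only [Finset.empty_subset, and_true, true_and] at h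
    exact h
  · intro P hP
    have h := cz_gen hN A R E {P} M hRA hEA hER (Finset.singleton_subset_iff.2 hP)
    have e1 : nS N {P} / fS N {P} = N P / (N P - 1) := by simp [nS, fS]
    rw [e1] at h
    simp only [Finset.singleton_subset_iff] at h
    exact h

end Pool.Agent.H19.CV
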